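import Pool.Agent.Helper72.MK.Goals

/-!
# Makai's conjecture in dimension 3: the diagonals (packet DIA)
-/

open MeasureTheory Set Filter Topology
open scoped ENNReal Quaternion
open Pool.Agent.Helper47.AQ
open Pool.Agent.Helper72.MK

noncomputable section

namespace Pool.Agent.Helper61.MK

theorem dia (hbip : BIPStmt) (hbody : BODYStmt) (hg1 : G1Stmt) : DIAStmt := by
  intro K hK hq s hs
  refine hbip (Fin 3) K hK _ ?_
  intro p hp
  obtain ⟨hL, hsym⟩ := hbody (Fin 3) K hK
  have hV : 0 < (volume (dpol K)).toReal := hK.dpol_pos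
  have h1 := hg1 (dpol K) hL hsym hq p hp
  set V : ℝ := (volume (dpol K)).toReal with hVdef
  set α : ℝ := (volume (sec 0 (dpol K))).toReal with hα
  set β : ℝ := (volume (sec 1 (dpol K))).toReal with hβ
  have hα0 : 0 ≤ α := ENNReal.toReal_nonneg
  have hβ0 : 0 ≤ β := ENNReal.toReal_nonneg
  rw [Fin.sum_univ_three]
  simp only [Matrix.cons_val_zero, Matrix.cons_val_one, Matrix.cons_val]
  have h2 : p 0 * α ≤ |p 0| * α := mul_le_mul_of_nonneg_right (le_abs_self _) hα0
  have h3 : p 1 * s * β ≤ |p 1| * β := by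
    refine mul_le_mul_of_nonneg_right ?_ hβ0
    calc p 1 * s ≤ |p 1 * s| := le_abs_self _
      _ = |p 1| := by rw [abs_mul, hs, mul_one]
  have h4 : p 0 * (2 * α / (3 * V)) + p 1 * (s * (2 * β / (3 * V))) + p 2 * 0 =
      2 * (p 0 * α + p 1 * s * β) / (3 * V) := by
    field_simp
    ring
  rw [h4, div_le_one (by positivity)]
  linarith

end Pool.Agent.Helper61.MK
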