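import Pool.Agent.Helper72.MK.Goals

/-!
# Makai's conjecture in dimension 3: the conclusion from the parallelogram (packet GEO)
-/

open MeasureTheory Set Filter Topology
open scoped ENNReal Quaternion
open Pool.Agent.Helper47.AQ
open Pool.Agent.Helper72.MK

noncomputable section

namespace Pool.Agent.Helper61.MK

/-- Sections of the polar are polars of projections. -/
theorem sec_dpol (i : Fin 3) (K : Set (Fin 3 → ℝ)) : sec i (dpol K) = dpol (pr i K) := by
  ext p
  have hsum : ∀ x y : Fin 3 → ℝ,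
      ∑ k, (i.insertNth (0 : ℝ) p : Fin 3 → ℝ) k * (x k - y k) =
        ∑ j, p j * (x (i.succAbove j) - y (i.succAbove j)) := by
    intro x y
    rw [Fin.sum_univ_succAbove _ i]
    simp
  constructor
  · rintro hp _ ⟨x, hx, rfl⟩ _ ⟨y, hy, rfl⟩
    have h1 := hp x hx y hy
    rw [hsum] at h1
    exact h1
  · intro hp x hx y hy
    have h1 := hp _ ⟨x, hx, rfl⟩ _ ⟨y, hy, rfl⟩
    rw [hsum]
    exact h1

/-- Projections of a convex body are convex bodies. -/
theorem pr_body (i : Fin 3) {K : Set (Fin 3 → ℝ)} (hK : IsBody K) : IsBody (pr i K) := by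
  have hpr : pr i K = (LinearMap.funLeft ℝ ℝ (i.succAbove : Fin 2 → Fin 3)) '' K := rfl
  have hcont : Continuous (LinearMap.funLeft ℝ ℝ (i.succAbove : Fin 2 → Fin 3)) :=
    LinearMap.continuous_of_finiteDimensional _
  refine ⟨?_, ?_, ?_⟩
  · rw [hpr]
    exact hK.conv.linear_image _
  · rw [hpr]
    exact hK.comp.image hcont
  · have hsurj : Function.Surjective (LinearMap.funLeft ℝ ℝ (i.succAbove : Fin 2 → Fin 3)) :=
      LinearMap.funLeft_surjective_of_injective _ _ _ Fin.succAbove_right_injective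
    have hopen : IsOpenMap (LinearMap.funLeft ℝ ℝ (i.succAbove : Fin 2 → Fin 3)) :=
      LinearMap.isOpenMap_of_finiteDimensional _ hsurj
    rw [hpr]
    exact (hK.int.image _).mono (hopen.image_interior_subset K)

theorem geo (hmix : MIXStmt) (hpl : PLStmt) : GEOStmt := by
  intro K hK δ a b c hδ ha hb h1 h2 h3 h4
  have hV : 0 < (volume (dpol K)).toReal := hK.dpol_pos
  have hP0 := hpl (pr 0 K) (pr_body 0 hK)
  have hP1 := hpl (pr 1 K) (pr_body 1 hK)
  unfold F at hP0 hP1
  rw [← sec_dpol] at hP0 hP1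
  unfold F
  set V : ℝ := (volume (dpol K)).toReal with hVdef
  set α : ℝ := (volume (sec 0 (dpol K))).toReal with hα
  set β : ℝ := (volume (sec 1 (dpol K))).toReal with hβ
  set W : ℝ := (volume K).toReal with hW
  have hα0 : 0 ≤ α := ENNReal.toReal_nonneg
  have hβ0 : 0 ≤ β := ENNReal.toReal_nonneg
  have ha0 : 0 ≤ a := by rw [ha]; positivity
  have hb0 : 0 ≤ b := by rw [hb]; positivity
  have hm := hmix K hK (δ * a) (δ * b) (c - (δ / 2) • ![a, b, 0]) (by positivity) (by positivity)
    h2 (by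
      have e : c - (δ / 2) • ![a, b, 0] + Pi.single 0 (δ * a) = c + (δ / 2) • ![a, -b, 0] := by
        funext k
        fin_cases k <;> simp [Matrix.vecHead, Matrix.vecTail] <;> ring
      rw [e]; exact h3) (by
      have e : c - (δ / 2) • ![a, b, 0] + Pi.single 1 (δ * b) = c - (δ / 2) • ![a, -b, 0] := by
        funext k
        fin_cases k <;> simp [Matrix.vecHead, Matrix.vecTail] <;> ring
      rw [e]; exact h4) (by
      have e : c - (δ / 2) • ![a, b, 0] + Pi.single 0 (δ * a) + Pi.single 1 (δ * b) =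
          c + (δ / 2) • ![a, b, 0] := by
        funext k
        fin_cases k <;> simp [Matrix.vecHead, Matrix.vecTail] <;> ring
      rw [e]; exact h1)
  have e1 : δ * a * (volume (pr 0 K)).toReal + δ * b * (volume (pr 1 K)).toReal =
      δ * (2 / (3 * V)) * ((volume (pr 0 K)).toReal * α + (volume (pr 1 K)).toReal * β) := by
    rw [ha, hb]
    field_simp
  rw [e1] at hm
  have h5 : δ * (2 / (3 * V)) * 3 ≤
      δ * (2 / (3 * V)) * ((volume (pr 0 K)).toReal * α + (volume (pr 1 K)).toReal * β) := by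
    refine mul_le_mul_of_nonneg_left (by linarith) (by positivity)
  have h6 : δ * (2 / (3 * V)) * 3 ≤ 3 * W := h5.trans hm
  have h7 : δ * (2 / (3 * V)) * 3 = 2 * δ / V := by
    field_simp
  rw [h7, div_le_iff₀ hV] at h6
  nlinarith

end Pool.Agent.Helper61.MK
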